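import Pool.Agent.PVD.StmtsG

/-!
Squad PVD, row CHV: the volume of the symmetric polytope is a constant times the volume of the
chamber polytope.
-/

set_option autoImplicit false

open MeasureTheory Metric Set Filter Topology

namespace PVD.H36

open PV PV3

/-- sums of an antitone function over a set are at most the sum over the initial segment -/
theorem sum_le_init {n : ℕ} (f : Fin (n + 1) → ℝ) (hf : Antitone f) (A : Finset (Fin (n + 1)))
    (h1 : 1 ≤ A.card) : ∑ i ∈ A, f i ≤ ∑ i : Fin (n + 1), if i.1 < A.card then f i else 0 := by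
  classical
  have hcard : A.card ≤ n + 1 := by
    have := Finset.card_le_univ A
    simpa using this
  set B : Finset (Fin (n + 1)) := Finset.univ.filter fun i => i.1 < A.card with hB
  have hBc : B.card = A.card := by
    rw [hB]
    have : (Finset.univ.filter fun i : Fin (n + 1) => i.1 < A.card).card = A.card := by
      rw [Fin.card_filter_val_lt]
      exact min_eq_right hcard
    exact this
  rw [← Finset.sum_filter, ← hB]
  have e1 := Finset.sum_inter_add_sum_sdiff A B f
  have e2 := Finset.sum_inter_add_sum_sdiff B A f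
  have hc : (A \ B).card = (B \ A).card := by
    have a1 := Finset.card_sdiff_add_card_inter A B
    have a2 := Finset.card_sdiff_add_card_inter B A
    rw [Finset.inter_comm B A] at a2
    omega
  let l : Fin (n + 1) := ⟨A.card - 1, by omega⟩
  have u1 : ∑ i ∈ A \ B, f i ≤ (A \ B).card • f l := by
    refine Finset.sum_le_card_nsmul _ _ _ fun i hi => ?_
    refine hf ?_
    rw [Finset.mem_sdiff, hB, Finset.mem_filter] at hi
    have : ¬ i.1 < A.card := fun h => hi.2 ⟨Finset.mem_univ _, h⟩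
    exact Fin.le_def.2 (by simp only [l]; omega)
  have u2 : (B \ A).card • f l ≤ ∑ i ∈ B \ A, f i := by
    refine Finset.card_nsmul_le_sum _ _ _ fun i hi => ?_
    refine hf ?_
    rw [Finset.mem_sdiff, hB, Finset.mem_filter] at hi
    have := hi.1.2
    exact Fin.le_def.2 (by simp only [l]; omega)
  rw [hc] at u1
  rw [Finset.inter_comm B A] at e2
  linarith

/-- the gap coordinates -/
noncomputable def gap (n : ℕ) (φ : E n →ₗᵢ[ℝ] E (n + 1)) : E n →ₗ[ℝ] (Fin n → ℝ) where
  toFun x := fun j => φ x j.castSucc - φ x j.succ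
  map_add' x y := by
    ext j
    simp only [map_add, PiLp.add_apply, Pi.add_apply]
    ring
  map_smul' c x := by
    ext j
    simp only [map_smul, PiLp.smul_apply, Pi.smul_apply, smul_eq_mul, RingHom.id_apply]
    ring

theorem gap_apply {n : ℕ} (φ : E n →ₗᵢ[ℝ] E (n + 1)) (x : E n) (j : Fin n) :
    gap n φ x j = φ x j.castSucc - φ x j.succ := rfl

theorem gap_inj {n : ℕ} (φ : E n →ₗᵢ[ℝ] E (n + 1)) (hφ : Emb n φ) :
    Function.Injective (gap n φ) := by
  rw [← LinearMap.ker_eq_bot, LinearMap.ker_eq_bot']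
  intro x hx
  have h1 : ∀ j : Fin n, φ x j.castSucc = φ x j.succ := by
    intro j
    have := congrFun hx j
    rw [gap_apply] at this
    simpa [sub_eq_zero] using this
  have h2 : ∀ i : Fin (n + 1), φ x i = φ x 0 := by
    intro i
    induction i using Fin.induction with
    | zero => rfl
    | succ j ih => rw [← h1 j, ih]
  have h3 : φ x 0 = 0 := by
    have := hφ.sum x
    rw [Finset.sum_congr rfl fun i _ => h2 i] at this
    rw [Finset.sum_const, Finset.card_univ, Fintype.card_fin, nsmul_eq_mul] at this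
    rcases mul_eq_zero.1 this with h | h
    · exfalso
      have : ((n + 1 : ℕ) : ℝ) ≠ 0 := by positivity
      exact this h
    · exact h
  have h4 : φ x = 0 := by
    ext i
    rw [h2 i, h3]
    rfl
  exact (map_eq_zero_iff φ φ.injective).1 h4

/-- the gap coordinates as an equivalence -/
noncomputable def gapE (n : ℕ) (φ : E n →ₗᵢ[ℝ] E (n + 1)) (hφ : Emb n φ) :
    E n ≃L[ℝ] (Fin n → ℝ) :=
  (LinearEquiv.ofInjectiveOfFinrankEq (gap n φ) (gap_inj φ hφ) (by simp)).toContinuousLinearEquiv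

theorem gapE_apply {n : ℕ} (φ : E n →ₗᵢ[ℝ] E (n + 1)) (hφ : Emb n φ) (x : E n) (j : Fin n) :
    gapE n φ hφ x j = φ x j.castSucc - φ x j.succ := rfl

theorem gap_volume {n : ℕ} (φ : E n →ₗᵢ[ℝ] E (n + 1)) (hφ : Emb n φ) :
    ∃ c : ENNReal, c ≠ 0 ∧ c ≠ ⊤ ∧ ∀ S : Set (Fin n → ℝ), MeasurableSet S →
      volume (gapE n φ hφ ⁻¹' S) = c * volume S := by
  have hc := Measure.isAddLeftInvariant_eq_smul
    (Measure.map (gapE n φ hφ) (volume : Measure (E n))) (volume : Measure (Fin n → ℝ))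
  have hpos := Measure.addHaarScalarFactor_pos_of_isAddHaarMeasure
    (Measure.map (gapE n φ hφ) (volume : Measure (E n))) (volume : Measure (Fin n → ℝ))
  refine ⟨_, ENNReal.coe_ne_zero.2 hpos.ne', ENNReal.coe_ne_top, fun S hS => ?_⟩
  rw [← Measure.map_apply (gapE n φ hφ).continuous.measurable hS]
  exact congrArg (fun ν : Measure (Fin n → ℝ) => ν S) hc

/-- the chambers -/
def Cm {n : ℕ} (φ : E n →ₗᵢ[ℝ] E (n + 1)) (σ : Equiv.Perm (Fin (n + 1))) : Set (E n) :=
  {x | Antitone fun i => φ x (σ i)}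

theorem Cm_closed {n : ℕ} (φ : E n →ₗᵢ[ℝ] E (n + 1)) (σ : Equiv.Perm (Fin (n + 1))) :
    IsClosed (Cm φ σ) := by
  have : Cm φ σ = ⋂ (i : Fin n), {x | φ x (σ i.succ) ≤ φ x (σ i.castSucc)} := by
    ext x
    simp only [Cm, mem_iInter, mem_ofPred_eq]
    exact Fin.antitone_iff_succ_le
  rw [this]
  refine isClosed_iInter fun i => isClosed_le ?_ ?_
  · exact (EuclideanSpace.proj (𝕜 := ℝ) (σ i.succ)).continuous.comp φ.continuous
  · exact (EuclideanSpace.proj (𝕜 := ℝ) (σ i.castSucc)).continuous.comp φ.continuous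

theorem Cm_cover {n : ℕ} (φ : E n →ₗᵢ[ℝ] E (n + 1)) (x : E n) : ∃ σ, x ∈ Cm φ σ := by
  refine ⟨Tuple.sort fun i => - φ x i, ?_⟩
  have h := Tuple.monotone_sort fun i => - φ x i
  intro i j hij
  have := h hij
  simp only [Function.comp] at this
  linarith

theorem Cm_overlap {n : ℕ} (φ : E n →ₗᵢ[ℝ] E (n + 1)) {σ τ : Equiv.Perm (Fin (n + 1))}
    (hst : σ ≠ τ) {x : E n} (h1 : x ∈ Cm φ σ) (h2 : x ∈ Cm φ τ) :
    ∃ i j : Fin (n + 1), i ≠ j ∧ φ x i = φ x j := by
  by_contra hcon
  push Not at hcon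
  refine hst ?_
  have key : ∀ ρ : Equiv.Perm (Fin (n + 1)), x ∈ Cm φ ρ →
      ρ = Tuple.sort fun i => - φ x i := by
    intro ρ hρ
    rw [Tuple.eq_sort_iff]
    refine ⟨fun i j hij => ?_, fun i j hij he => ?_⟩
    · have := hρ hij
      simp only [Function.comp]
      exact neg_le_neg this
    · exfalso
      have hne : ρ i ≠ ρ j := fun h => hij.ne (ρ.injective h)
      exact hcon _ _ hne (neg_injective he)
  rw [key σ h1, key τ h2]

theorem null_eq {n : ℕ} (φ : E n →ₗᵢ[ℝ] E (n + 1)) (hφ : Emb n φ) {i j : Fin (n + 1)}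
    (hij : i ≠ j) : volume {x : E n | φ x i = φ x j} = 0 := by
  let L : E n →ₗ[ℝ] ℝ :=
    { toFun := fun x => φ x i - φ x j
      map_add' := fun x y => by simp only [map_add, PiLp.add_apply]; ring
      map_smul' := fun c x => by
        simp only [map_smul, PiLp.smul_apply, smul_eq_mul, RingHom.id_apply]; ring }
  have hset : {x : E n | φ x i = φ x j} = (LinearMap.ker L : Set (E n)) := by
    ext x
    simp only [mem_ofPred_eq, SetLike.mem_coe, LinearMap.mem_ker]
    exact sub_eq_zero.symm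
  rw [hset]
  refine Measure.addHaar_submodule _ _ ?_
  intro htop
  obtain ⟨x, hx⟩ := hφ.surj (EuclideanSpace.single i (1 : ℝ) - EuclideanSpace.single j (1 : ℝ))
    (by simp [Finset.sum_sub_distrib])
  have : x ∈ LinearMap.ker L := htop ▸ Submodule.mem_top
  rw [LinearMap.mem_ker] at this
  change φ x i - φ x j = 0 at this
  rw [hx] at this
  simp [hij, hij.symm] at this

theorem PP_closed {n : ℕ} (φ : E n →ₗᵢ[ℝ] E (n + 1)) (R : Finset ℕ) (H : ℕ → ℝ) :
    IsClosed (PP φ R H) := by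
  have : PP φ R H = ⋂ (r : ℕ) (_ : r ∈ R) (A : Finset (Fin (n + 1))) (_ : A.card = r),
      {x | ∑ i ∈ A, φ x i ≤ H r} := by
    ext x
    simp only [PP, mem_iInter, mem_ofPred_eq]
  rw [this]
  refine isClosed_iInter fun r => isClosed_iInter fun _ => isClosed_iInter fun A =>
    isClosed_iInter fun _ => isClosed_le ?_ continuous_const
  refine continuous_finsetSum _ fun i _ => ?_
  exact (EuclideanSpace.proj (𝕜 := ℝ) i).continuous.comp φ.continuous

/-- the part of the polytope in the first chamber -/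
theorem PP_chamber (kapS : KAPStmt) {n : ℕ} (φ : E n →ₗᵢ[ℝ] E (n + 1)) (hn : 1 ≤ n)
    (hφ : Emb n φ) (R : Finset ℕ) (H : ℕ → ℝ) (hR : RO n R) :
    PP φ R H ∩ Cm φ 1 = gapE n φ hφ ⁻¹' Ch n R H := by
  ext x
  have hC : x ∈ Cm φ 1 ↔ ∀ j : Fin n, 0 ≤ gapE n φ hφ x j := by
    have : x ∈ Cm φ 1 ↔ Antitone fun i => φ x i := Iff.rfl
    rw [this, Fin.antitone_iff_succ_le]
    refine forall_congr' fun j => ?_
    rw [gapE_apply, sub_nonneg]
  have hk : ∀ r, 1 ≤ r → r ≤ n → ∑ i : Fin (n + 1), (if i.1 < r then φ x i else 0) =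
      ∑ j : Fin n, kap n r (j.1 + 1) * gapE n φ hφ x j := by
    intro r h1 h2
    exact (kapS n hn).2.2.2 r (fun i => φ x i) h1 h2 (hφ.sum x)
  constructor
  · rintro ⟨hP, hx⟩
    refine ⟨hC.1 hx, fun r hr => ?_⟩
    obtain ⟨h1, h2⟩ := hR.2 r hr
    rw [← hk r h1 h2, ← Finset.sum_filter]
    refine hP r hr _ ?_
    rw [Fin.card_filter_val_lt]
    exact min_eq_right (by omega)
  · rintro ⟨hx, hP⟩
    refine ⟨fun r hr A hA => ?_, hC.2 hx⟩
    obtain ⟨h1, h2⟩ := hR.2 r hr
    have := sum_le_init (fun i => φ x i) (hC.2 hx) A (by omega)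
    refine this.trans ?_
    rw [hA, hk r h1 h2]
    exact hP r hr

theorem chv (kapS : KAPStmt) (symS : SYMStmt) (wpsS : WPSStmt) : CHVStmt := by
  intro n φ hn hφ
  obtain ⟨c, hc0, hct, hc⟩ := gap_volume φ hφ
  refine ⟨((Fintype.card (Equiv.Perm (Fin (n + 1))) : ENNReal) * c).toReal, ?_, ?_⟩
  · refine ENNReal.toReal_pos ?_ ?_
    · refine mul_ne_zero ?_ hc0
      exact_mod_cast Fintype.card_ne_zero
    · exact ENNReal.mul_ne_top (ENNReal.natCast_ne_top _) hct
  intro R H hR
  have hmeas : ∀ σ, MeasurableSet (PP φ R H ∩ Cm φ σ) := fun σ =>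
    ((PP_closed φ R H).inter (Cm_closed φ σ)).measurableSet
  have hvol : ∀ σ, volume (PP φ R H ∩ Cm φ σ) = c * volume (Ch n R H) := by
    intro σ
    obtain ⟨T, hT, -⟩ := symS n φ hφ σ
    rw [← hc _ (wpsS n R H hR).1.measurableSet, ← PP_chamber kapS φ hn hφ R H hR,
      ← T.measurePreserving.measure_preimage (hmeas σ).nullMeasurableSet]
    congr 1
    ext x
    have a1 : T x ∈ Cm φ σ ↔ x ∈ Cm φ 1 := by
      have : (fun i => φ (T x) (σ i)) = fun i => φ x i := funext fun i => hT x i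
      change Antitone (fun i => φ (T x) (σ i)) ↔ Antitone fun i => φ x ((1 : Equiv.Perm (Fin (n + 1))) i)
      rw [this]
      rfl
    have a2 : T x ∈ PP φ R H ↔ x ∈ PP φ R H := by
      have e : ∀ A : Finset (Fin (n + 1)), ∑ i ∈ A.map σ.toEmbedding, φ (T x) i =
          ∑ i ∈ A, φ x i := by
        intro A
        rw [Finset.sum_map]
        exact Finset.sum_congr rfl fun i _ => hT x i
      constructor
      · intro h r hr A hA
        rw [← e A]
        exact h r hr _ (by rw [Finset.card_map, hA])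
      · intro h r hr A hA
        have h' := h r hr (A.map σ.symm.toEmbedding) (by rw [Finset.card_map, hA])
        rw [← e] at h'
        have hmm : (A.map σ.symm.toEmbedding).map σ.toEmbedding = A := by
          ext i
          simp
        rwa [hmm] at h'
    rw [mem_preimage, mem_inter_iff, mem_inter_iff, a1, a2]
  have hun : PP φ R H = ⋃ σ : Equiv.Perm (Fin (n + 1)), PP φ R H ∩ Cm φ σ := by
    rw [← inter_iUnion]
    refine (inter_eq_left.2 fun x _ => ?_).symm
    exact mem_iUnion.2 (Cm_cover φ x)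
  have hd : Pairwise (Function.onFun (AEDisjoint (volume : Measure (E n)))
      fun σ : Equiv.Perm (Fin (n + 1)) => PP φ R H ∩ Cm φ σ) := by
    intro σ τ hst
    have hsub : (PP φ R H ∩ Cm φ σ) ∩ (PP φ R H ∩ Cm φ τ) ⊆
        ⋃ (p : {p : Fin (n + 1) × Fin (n + 1) // p.1 ≠ p.2}),
          {x : E n | φ x p.1.1 = φ x p.1.2} := by
      rintro x ⟨⟨-, h1⟩, -, h2⟩
      obtain ⟨i, j, hij, h⟩ := Cm_overlap φ hst h1 h2
      exact mem_iUnion.2 ⟨⟨(i, j), hij⟩, h⟩
    refine measure_mono_null hsub ?_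
    rw [measure_iUnion_null_iff]
    exact fun p => null_eq φ hφ p.2
  unfold vl W
  rw [← ENNReal.toReal_mul]
  congr 1
  conv_lhs => rw [hun]
  rw [measure_iUnion₀ hd fun σ => (hmeas σ).nullMeasurableSet, tsum_fintype,
    Finset.sum_congr rfl fun σ _ => hvol σ, Finset.sum_const, Finset.card_univ, nsmul_eq_mul,
    mul_assoc]

end PVD.H36
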